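import Mathlib
import Pool.Agent.W2helper42.TQ.Stm2

/-!
# Affine schemes of finite type over a finite field
-/

set_option autoImplicit false

namespace Pool.Agent.W2helper33.TQ

open AlgebraicGeometry CategoryTheory Pool.Agent.W2helper42.TQ

theorem ft_iff (p : ℕ) (R : Type) [CommRing R] :
    FT p (Spec (CommRingCat.of R)) ↔ Fg p R := by
  constructor
  · rintro ⟨f, hf, -, -⟩
    obtain ⟨φ, rfl⟩ := Spec.map_surjective f
    rw [HasRingHomProperty.Spec_iff (P := @LocallyOfFiniteType)] at hf
    exact ⟨φ.hom, hf⟩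
  · rintro ⟨φ, hφ⟩
    refine ⟨Spec.map (CommRingCat.ofHom φ), ?_, inferInstance, inferInstance⟩
    rw [HasRingHomProperty.Spec_iff (P := @LocallyOfFiniteType)]
    exact hφ

/-- the closed subscheme -/
noncomputable def ci (R : Type) [CommRing R] (a : R) :
    Spec (CommRingCat.of (R ⧸ Ideal.span {a})) ⟶ Spec (CommRingCat.of R) :=
  Spec.map (CommRingCat.ofHom (Ideal.Quotient.mk (Ideal.span {a})))

/-- the open subscheme -/
noncomputable def oj (R : Type) [CommRing R] (a : R) :
    Spec (CommRingCat.of (Localization.Away a)) ⟶ Spec (CommRingCat.of R) :=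
  Spec.map (CommRingCat.ofHom (algebraMap R (Localization.Away a)))

theorem ci_closed (R : Type) [CommRing R] (a : R) : IsClosedImmersion (ci R a) :=
  IsClosedImmersion.spec_of_surjective _ Ideal.Quotient.mk_surjective

theorem oj_open (R : Type) [CommRing R] (a : R) : IsOpenImmersion (oj R a) :=
  Scheme.isOpenImmersion_SpecMap_localizationAway (R := CommRingCat.of R) a

theorem range_eq (R : Type) [CommRing R] (a : R) :
    Set.range (ci R a) = (Set.range (oj R a))ᶜ := by
  have h1 : Set.range (ci R a) = PrimeSpectrum.zeroLocus (Ideal.span {a} : Ideal R) := by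
    have := range_comap_of_surjective (R ⧸ Ideal.span {a})
      (Ideal.Quotient.mk (Ideal.span {a})) Ideal.Quotient.mk_surjective
    rw [Ideal.mk_ker] at this
    exact this
  have h2 : Set.range (oj R a) = (PrimeSpectrum.basicOpen a : Set (PrimeSpectrum R)) :=
    PrimeSpectrum.localization_away_comap_range (Localization.Away a) a
  have h3 : (PrimeSpectrum.zeroLocus (Ideal.span {a} : Ideal R) : Set (PrimeSpectrum R)) =
      ((PrimeSpectrum.basicOpen a : Set (PrimeSpectrum R)))ᶜ := by
    rw [PrimeSpectrum.basicOpen_eq_zeroLocus_compl, compl_compl, PrimeSpectrum.zeroLocus_span]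
  exact h1.trans (h3.trans (congrArg _ h2.symm))

theorem piece_AFF : S_AFF := by
  intro p Pr h
  refine ⟨ft_iff p, ?_, ?_, ?_, ?_⟩
  · intro R S _ _ hR e hP
    exact h.iso _ _ ((ft_iff p R).2 hR)
      (Scheme.Spec.mapIso (e.toCommRingCatIso.symm).op) hP
  · intro R _ a hR h1 h2
    exact h.closed _ _ _ (ci R a) (oj R a) (ci_closed R a) (oj_open R a) ((ft_iff p R).2 hR)
      (range_eq R a) h1 h2
  · intro R _ a hR h1 h2
    exact h.total _ _ _ (ci R a) (oj R a) (ci_closed R a) (oj_open R a) ((ft_iff p R).2 hR)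
      (range_eq R a) h1 h2
  · intro R _ a hR h1 h2
    exact h.opened _ _ _ (ci R a) (oj R a) (ci_closed R a) (oj_open R a) ((ft_iff p R).2 hR)
      (range_eq R a) h1 h2

end Pool.Agent.W2helper33.TQ
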